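import Pool.Agent.H23.D2.Bln
import Pool.Agent.H31.W1.H2.GEN.EvS

/-!
# Balls only

`EvB`: the ball part of the event of a window. `ball_win`, `ball_list`: in a class, from the
diagonal data only, at one window and at finitely many windows.
-/

set_option autoImplicit false

namespace Pool.W.D2R

open Pool.D2R

open Finset Real MvPolynomial
open Pool.Agent.H49.Ent Pool.Agent.H32.Dense Pool.STK Pool.KA Pool.KSAT Pool.K2S Pool.PB Pool.S6C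
open Pool.GEN Pool.CHT Pool.CHX Pool.ISO
open Pool.LBT (LSys Slo Tri ThrOf fl_le' bas_false)
open Pool.LEV (Law)
open Pool.FLF (Fam.sub)
open Pool.JTN (TgP)


/-- **The ball of a window**: the ball part of `EvS`. -/
structure EvB {m J : ℕ} (F : Pool.KA.Fam m J) (c : ℕ → Fin m) (r D Dr w' M : ℕ) (z : ℕ → ℕ)
    (e h : ℕ) (g g₀ : ℕ → ℕ) (κ : ℝ) (B : F.Ω → Prop)
    (G₀ : Pool.GEN.PtT F → ℕ → MvPolynomial (Option (Fin m)) ℝ)
    (H₀ : Pool.GEN.LnT F → ℕ → MvPolynomial (Option (Fin m)) ℝ) : Prop where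
  ball : Pool.W.GEN.ChOK F c (r + 1) (fun _ => D) w' w' e g₀ B G₀ H₀
  cls : Pool.ISO.Clsd F (r + 1) w' B G₀ H₀
  relb : Pool.CHT.RelvF F c r w' w' g₀ Dr h κ B G₀
  near : ∀ ω, B ω → ∀ l ≤ r, ∀ b : Option (Fin m) → ℝ,
    |eval b (Pool.GEN.Gno (c l) J J (fun y => G₀ y l) (Pool.PB.ptr F J ω)) - eval b (G₀ (Pool.PB.ptr F J ω) l)| ≤
      2 / 2 ^ g₀ l
  rad : ∀ i ≤ M, Pool.W.GEN.ChOK F c (r + 1) (fun _ => D) (w' + z i) w' e (fun l => g l + z i) B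
    (fun y l => Pool.GEN.Gno (c l) J J (fun y => G₀ y l) y) (fun s l => Pool.GEN.Hno (c l) (fun s => H₀ s l) s)

section

variable {m J : ℕ} {F : Pool.KA.Fam m J} {c : ℕ → Fin m} {r D Dr w' v M : ℕ} {z : ℕ → ℕ}
    {e h p : ℕ} {R : ℕ → Prop} {g gc gT g₀ : ℕ → ℕ} {κ κ₁ κ₂ : ℝ} {B B' : F.Ω → Prop}
    {G₀ : Pool.GEN.PtT F → ℕ → MvPolynomial (Option (Fin m)) ℝ}
    {H₀ : Pool.GEN.LnT F → ℕ → MvPolynomial (Option (Fin m)) ℝ}
    {T : Pool.GEN.PtT F → ℕ → MvPolynomial (Option (Fin m)) ℝ}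
    {TH : Pool.GEN.LnT F → ℕ → MvPolynomial (Option (Fin m)) ℝ}
    {Gt : Pool.GEN.PtT F → MvPolynomial (Option (Fin m)) ℝ}
    {Ht : Pool.GEN.LnT F → MvPolynomial (Option (Fin m)) ℝ}

/-- The ball of `EvS`. -/
theorem EvS.toB (H : Pool.W.ISO.EvS F c r D Dr w' v M z e h p R g gc gT g₀ κ B G₀ H₀ T TH Gt Ht) :
    Pool.W.D2R.EvB F c r D Dr w' M z e h g g₀ κ B G₀ H₀ :=
  ⟨H.ball, H.cls, H.relb, H.near, H.rad⟩

/-- Smaller events. -/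
theorem EvB.sub (H : Pool.W.D2R.EvB F c r D Dr w' M z e h g g₀ κ B G₀ H₀) (hB : Pool.K2S.Sub B' B)
    (hP : κ₁ * Pool.K2S.Pe F.p B ≤ Pool.K2S.Pe F.p B') (h2 : 0 ≤ κ₂) (hκ : κ ≤ κ₂ * κ₁) :
    Pool.W.D2R.EvB F c r D Dr w' M z e h g g₀ κ₂ B' G₀ H₀ :=
  ⟨H.ball.sub hB, H.cls.sub hB, H.relb.sub hB hP h2 hκ, fun ω hω => H.near ω (hB ω hω),
    fun i hi => (H.rad i hi).sub hB⟩

/-- A larger degree. -/
theorem EvB.deg (H : Pool.W.D2R.EvB F c r D Dr w' M z e h g g₀ κ B G₀ H₀) {D' : ℕ} (hD : D ≤ D') :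
    Pool.W.D2R.EvB F c r D' Dr w' M z e h g g₀ κ B G₀ H₀ :=
  ⟨H.ball.mono le_rfl (fun _ => hD) le_rfl le_rfl, H.cls, H.relb, H.near,
    fun i hi => (H.rad i hi).mono le_rfl (fun _ => hD) le_rfl le_rfl⟩

/-- A larger degree. -/
theorem EvS.deg (H : Pool.W.ISO.EvS F c r D Dr w' v M z e h p R g gc gT g₀ κ B G₀ H₀ T TH Gt Ht) {D' : ℕ}
    (hD : D ≤ D') : Pool.W.ISO.EvS F c r D' Dr w' v M z e h p R g gc gT g₀ κ B G₀ H₀ T TH Gt Ht where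
  ball := H.ball.mono le_rfl (fun _ => hD) le_rfl le_rfl
  cls := H.cls
  relb := H.relb
  near := H.near
  rad := fun i hi => (H.rad i hi).mono le_rfl (fun _ => hD) le_rfl le_rfl
  top := H.top.mono le_rfl (fun _ => hD) le_rfl le_rfl
  gle := H.gle
  thin := H.thin.mono le_rfl (fun _ => hD) le_rfl le_rfl
  relt := H.relt
  rgh := H.rgh
  dG := fun y => (H.dG y).trans hD
  dH := fun s => (H.dH s).trans hD
  pG := H.pG
  pH := H.pH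
  pos := H.pos
  agr := H.agr

end


end Pool.W.D2R
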